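import Mathlib
import Pool.Agent.Y113.MT.Stm

/-!
# Project MT, job LIE2: the orthogonal complement of an irreducible subalgebra
-/

set_option autoImplicit false
set_option linter.unusedSectionVars false

open Matrix

namespace Pool.Agent.Y961.MT

open Pool.Agent.Y113.MT

variable {F : Type} [Field F]

/-! ### Components -/

/-- the component of degree `d` -/
def cm {n : ℕ} (d : ℤ) (X : Matrix (Fin n) (Fin n) F) : Matrix (Fin n) (Fin n) F :=
  Matrix.of fun a b => if ((b : ℕ) : ℤ) - ((a : ℕ) : ℤ) = d then X a b else 0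

theorem ad_gr {n : ℕ} (X : Matrix (Fin n) (Fin n) F) (a b : Fin n) :
    (gr F n * X - X * gr F n) a b = (((b : ℕ) : F) - ((a : ℕ) : F)) * X a b := by
  unfold gr
  rw [Matrix.sub_apply, Matrix.diagonal_mul, Matrix.mul_diagonal]
  ring

theorem prod_mem {n : ℕ} (L : Submodule F (Matrix (Fin n) (Fin n) F))
    (h : ∀ X ∈ L, gr F n * X - X * gr F n ∈ L) (X : Matrix (Fin n) (Fin n) F) (hX : X ∈ L)
    (s : Finset ℤ) :
    (Matrix.of fun a b : Fin n => (∏ e ∈ s, (((b : ℕ) : F) - ((a : ℕ) : F) - (e : F))) * X a b) ∈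
      L := by
  induction s using Finset.induction_on with
  | empty =>
    simp only [Finset.prod_empty, one_mul]
    exact hX
  | insert e s he ih =>
    have h1 := L.sub_mem (h _ ih) (L.smul_mem (e : F) ih)
    convert h1 using 1
    ext a b
    rw [Matrix.sub_apply, ad_gr, Matrix.smul_apply, Matrix.of_apply, Matrix.of_apply,
      Finset.prod_insert he, smul_eq_mul]
    ring

theorem cm_mem [CharZero F] {n : ℕ} (L : Submodule F (Matrix (Fin n) (Fin n) F))
    (h : ∀ X ∈ L, gr F n * X - X * gr F n ∈ L) (X : Matrix (Fin n) (Fin n) F) (hX : X ∈ L)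
    (d : ℤ) : cm d X ∈ L := by
  have h1 := prod_mem L h X hX ((Finset.Icc (-(n : ℤ)) n).erase d)
  have hc : (∏ e ∈ (Finset.Icc (-(n : ℤ)) n).erase d, ((d : F) - (e : F))) ≠ 0 := by
    rw [Finset.prod_ne_zero_iff]
    intro e he
    rw [sub_ne_zero]
    exact_mod_cast (Finset.ne_of_mem_erase he).symm
  have h2 := L.smul_mem (∏ e ∈ (Finset.Icc (-(n : ℤ)) n).erase d, ((d : F) - (e : F)))⁻¹ h1
  convert h2 using 1
  ext a b
  unfold cm
  rw [Matrix.smul_apply, Matrix.of_apply, Matrix.of_apply, smul_eq_mul]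
  have hab : ((b : ℕ) : F) - ((a : ℕ) : F) = ((((b : ℕ) : ℤ) - ((a : ℕ) : ℤ) : ℤ) : F) := by
    push_cast
    ring
  split_ifs with hd
  · rw [hab, hd, ← mul_assoc, inv_mul_cancel₀ hc, one_mul]
  · have hz : ∏ e ∈ (Finset.Icc (-(n : ℤ)) n).erase d,
        (((b : ℕ) : F) - ((a : ℕ) : F) - (e : F)) = 0 := by
      refine Finset.prod_eq_zero (i := ((b : ℕ) : ℤ) - ((a : ℕ) : ℤ)) ?_ ?_
      · rw [Finset.mem_erase, Finset.mem_Icc]
        refine ⟨hd, ?_, ?_⟩ <;> omega
      · rw [hab, sub_self]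
    rw [hz, zero_mul, mul_zero]

/-! ### The symplectic form -/

theorem SS_sq (m : ℕ) : SS F (2 * m) * SS F (2 * m) = -1 := by
  ext i j
  rw [Matrix.mul_apply, Finset.sum_eq_single (Fin.rev i)]
  · unfold SS
    have h1 : ((Fin.rev i : Fin (2 * m)) : ℕ) = 2 * m - (i + 1) := Fin.val_rev i
    have hi := i.2
    have hj := j.2
    rw [Matrix.of_apply, Matrix.of_apply, if_pos (by omega)]
    rw [Matrix.neg_apply, Matrix.one_apply]
    by_cases hij : i = j
    · subst hij
      rw [if_pos (by omega), if_pos rfl, ← pow_add]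
      rw [show (i : ℕ) + ((Fin.rev i : Fin (2 * m)) : ℕ) = 2 * (m - 1) + 1 by omega]
      rw [pow_add, pow_mul]
      norm_num
    · rw [if_neg, if_neg hij]
      · simp
      · intro h
        apply hij
        apply Fin.ext
        omega
  · intro k _ hk
    unfold SS
    rw [Matrix.of_apply, if_neg, zero_mul]
    intro h
    apply hk
    apply Fin.ext
    rw [Fin.val_rev]
    omega
  · intro h
    exact absurd (Finset.mem_univ _) h

theorem SX {m : ℕ} {X : Matrix (Fin (2 * m)) (Fin (2 * m)) F}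
    (h : X * SS F (2 * m) + SS F (2 * m) * Xᵀ = 0) :
    SS F (2 * m) * X = -(Xᵀ * SS F (2 * m)) := by
  have h1 : SS F (2 * m) * (X * SS F (2 * m) + SS F (2 * m) * Xᵀ) * SS F (2 * m) = 0 := by
    rw [h, mul_zero, zero_mul]
  have h2 : SS F (2 * m) * (X * SS F (2 * m) + SS F (2 * m) * Xᵀ) * SS F (2 * m) =
      SS F (2 * m) * X * (SS F (2 * m) * SS F (2 * m)) +
        (SS F (2 * m) * SS F (2 * m)) * (Xᵀ * SS F (2 * m)) := by
    noncomm_ring
  rw [h2, SS_sq] at h1
  have h3 : -(SS F (2 * m) * X) - Xᵀ * SS F (2 * m) = 0 := by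
    rw [← h1]
    noncomm_ring
  rw [sub_eq_zero] at h3
  rw [← h3, neg_neg]

/-! ### The orthogonal complement -/

theorem tr_eq {n : ℕ} (σ : F →+* F) (X Y : Matrix (Fin n) (Fin n) F) :
    Matrix.trace (X * (Y.map σ)ᵀ) = ∑ a, ∑ b, X a b * σ (Y a b) := by
  unfold Matrix.trace
  refine Finset.sum_congr rfl fun a _ => ?_
  rw [Matrix.diag_apply, Matrix.mul_apply]
  rfl

/-- the orthogonal complement of `L` in the symplectic Lie algebra -/
def Lp (m : ℕ) (σ : F →+* F) (L : Submodule F (Matrix (Fin (2 * m)) (Fin (2 * m)) F)) :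
    Submodule F (Matrix (Fin (2 * m)) (Fin (2 * m)) F) where
  carrier := {ξ | ξ * SS F (2 * m) + SS F (2 * m) * ξᵀ = 0 ∧
    ∀ X ∈ L, Matrix.trace (X * (ξ.map σ)ᵀ) = 0}
  add_mem' := by
    rintro ξ η ⟨h1, h2⟩ ⟨h3, h4⟩
    refine ⟨?_, fun X hX => ?_⟩
    · rw [Matrix.transpose_add, mul_add, add_mul]
      have : ξ * SS F (2 * m) + η * SS F (2 * m) + (SS F (2 * m) * ξᵀ + SS F (2 * m) * ηᵀ) =
        (ξ * SS F (2 * m) + SS F (2 * m) * ξᵀ) + (η * SS F (2 * m) + SS F (2 * m) * ηᵀ) := by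
        abel
      rw [this, h1, h3, add_zero]
    · have h5 := h2 X hX
      have h6 := h4 X hX
      rw [tr_eq] at h5 h6 ⊢
      rw [← add_zero (0 : F)]
      nth_rewrite 1 [← h5]
      rw [← h6, ← Finset.sum_add_distrib]
      refine Finset.sum_congr rfl fun a _ => ?_
      rw [← Finset.sum_add_distrib]
      refine Finset.sum_congr rfl fun b _ => ?_
      rw [Matrix.add_apply, map_add, mul_add]
  zero_mem' := by
    refine ⟨by simp, fun X _ => ?_⟩
    rw [tr_eq]
    simp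
  smul_mem' := by
    rintro c ξ ⟨h1, h2⟩
    refine ⟨?_, fun X hX => ?_⟩
    · rw [Matrix.transpose_smul, Matrix.smul_mul, Matrix.mul_smul, ← smul_add, h1, smul_zero]
    · have h5 := h2 X hX
      rw [tr_eq] at h5 ⊢
      rw [← mul_zero (σ c), ← h5, Finset.mul_sum]
      refine Finset.sum_congr rfl fun a _ => ?_
      rw [Finset.mul_sum]
      refine Finset.sum_congr rfl fun b _ => ?_
      rw [Matrix.smul_apply, smul_eq_mul, map_mul]
      ring

theorem mem_Lp {m : ℕ} {σ : F →+* F} {L : Submodule F (Matrix (Fin (2 * m)) (Fin (2 * m)) F)}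
    {ξ : Matrix (Fin (2 * m)) (Fin (2 * m)) F} :
    ξ ∈ Lp m σ L ↔ ξ * SS F (2 * m) + SS F (2 * m) * ξᵀ = 0 ∧
      ∀ X ∈ L, Matrix.trace (X * (ξ.map σ)ᵀ) = 0 := Iff.rfl

theorem Lp_br {m : ℕ} {σ : F →+* F} {L : Submodule F (Matrix (Fin (2 * m)) (Fin (2 * m)) F)}
    (hL : LH m σ L) {Y ξ : Matrix (Fin (2 * m)) (Fin (2 * m)) F} (hY : Y ∈ L)
    (hξ : ξ ∈ Lp m σ L) : Y * ξ - ξ * Y ∈ Lp m σ L := by
  rw [mem_Lp] at hξ ⊢
  obtain ⟨h1, h2⟩ := hξ
  have h3 := hL.sp Y hY
  refine ⟨?_, fun X hX => ?_⟩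
  · have h4 : ξ * SS F (2 * m) = -(SS F (2 * m) * ξᵀ) := eq_neg_of_add_eq_zero_left h1
    have h5 : Y * SS F (2 * m) = -(SS F (2 * m) * Yᵀ) := eq_neg_of_add_eq_zero_left h3
    rw [Matrix.transpose_sub, Matrix.transpose_mul, Matrix.transpose_mul, sub_mul, mul_assoc,
      mul_assoc ξ, h4, h5, mul_neg, mul_neg, ← mul_assoc Y, ← mul_assoc ξ, h4, h5]
    noncomm_ring
  · have h4 : ((Y * ξ - ξ * Y).map σ)ᵀ = (ξ.map σ)ᵀ * (Y.map σ)ᵀ - (Y.map σ)ᵀ * (ξ.map σ)ᵀ := by
      rw [Matrix.map_sub _ (fun a b => map_sub σ a b), Matrix.map_mul, Matrix.map_mul,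
        Matrix.transpose_sub, Matrix.transpose_mul, Matrix.transpose_mul]
    rw [h4, mul_sub, Matrix.trace_sub, ← mul_assoc, ← mul_assoc, Matrix.trace_mul_cycle,
      ← Matrix.trace_sub, ← sub_mul]
    exact h2 _ (hL.br _ (hL.adj Y hY) _ hX)

/-! ### Rank one elements -/

/-- the elements `u wᵀ S` -/
def Mb (n : ℕ) : (Fin n → F) →ₗ[F] (Fin n → F) →ₗ[F] Matrix (Fin n) (Fin n) F :=
  LinearMap.mk₂ F (fun u w => vecMulVec u w * SS F n)
    (fun u u' w => by rw [Matrix.add_vecMulVec, add_mul])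
    (fun c u w => by rw [Matrix.smul_vecMulVec, Matrix.smul_mul])
    (fun u w w' => by rw [Matrix.vecMulVec_add, add_mul])
    (fun c u w => by rw [Matrix.vecMulVec_smul, Matrix.smul_mul])

theorem Mb_apply {n : ℕ} (u w : Fin n → F) : Mb n u w = vecMulVec u w * SS F n := rfl

theorem Mb_left {n : ℕ} (X : Matrix (Fin n) (Fin n) F) (u w : Fin n → F) :
    X * Mb n u w = Mb n (X *ᵥ u) w := by
  rw [Mb_apply, Mb_apply, ← mul_assoc, Matrix.mul_vecMulVec]

theorem Mb_right {m : ℕ} {X : Matrix (Fin (2 * m)) (Fin (2 * m)) F}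
    (h : X * SS F (2 * m) + SS F (2 * m) * Xᵀ = 0) (u w : Fin (2 * m) → F) :
    Mb (2 * m) u w * X = -Mb (2 * m) u (X *ᵥ w) := by
  rw [Mb_apply, Mb_apply, mul_assoc, SX h, mul_neg, ← mul_assoc, Matrix.vecMulVec_mul,
    Matrix.vecMul_transpose]

theorem Mb_entry {m : ℕ} (u w : Fin (2 * m) → F) (a b : Fin (2 * m)) :
    Mb (2 * m) u w a b = u a * w (Fin.rev b) * (-1) ^ ((Fin.rev b : Fin (2 * m)) : ℕ) := by
  rw [Mb_apply, Matrix.mul_apply, Finset.sum_eq_single (Fin.rev b)]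
  · unfold SS
    rw [Matrix.vecMulVec_apply, Matrix.of_apply, if_pos]
    rw [Fin.val_rev]
    omega
  · intro k _ hk
    unfold SS
    rw [Matrix.of_apply, if_neg, mul_zero]
    intro h
    apply hk
    apply Fin.ext
    rw [Fin.val_rev]
    omega
  · intro h
    exact absurd (Finset.mem_univ _) h

section growth

variable [CharZero F] {m : ℕ} {σ : F →+* F}
  {L : Submodule F (Matrix (Fin (2 * m)) (Fin (2 * m)) F)}

/-- divided powers -/
noncomputable def dp {n : ℕ} (X : Matrix (Fin n) (Fin n) F) (v : Fin n → F) (k : ℕ) :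
    Fin n → F := ((k.factorial : F))⁻¹ • (X ^ k *ᵥ v)

theorem dp_succ {n : ℕ} (X : Matrix (Fin n) (Fin n) F) (v : Fin n → F) (k : ℕ) :
    X *ᵥ dp X v k = ((k : F) + 1) • dp X v (k + 1) := by
  unfold dp
  have h1 : ((k : F) + 1) ≠ 0 := by exact_mod_cast Nat.succ_ne_zero k
  have h2 : ((k.factorial : F)) ≠ 0 := by exact_mod_cast Nat.factorial_ne_zero k
  rw [Matrix.mulVec_smul, Matrix.mulVec_mulVec, ← pow_succ', smul_smul, Nat.factorial_succ]
  congr 1
  push_cast
  field_simp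

/-- the coefficients of the curve -/
noncomputable def Ph (m : ℕ) (X : Matrix (Fin (2 * m)) (Fin (2 * m)) F) (v : Fin (2 * m) → F)
    (k : ℕ) : Matrix (Fin (2 * m)) (Fin (2 * m)) F :=
  ∑ x ∈ Finset.HasAntidiagonal.antidiagonal k, Mb (2 * m) (dp X v x.1) (dp X v x.2)

theorem Ph_succ {X : Matrix (Fin (2 * m)) (Fin (2 * m)) F}
    (h : X * SS F (2 * m) + SS F (2 * m) * Xᵀ = 0) (v : Fin (2 * m) → F) (k : ℕ) :
    X * Ph m X v k - Ph m X v k * X = ((k : F) + 1) • Ph m X v (k + 1) := by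
  unfold Ph
  rw [Finset.mul_sum, Finset.sum_mul, ← Finset.sum_sub_distrib, Finset.smul_sum]
  have h1 : ∑ x ∈ Finset.HasAntidiagonal.antidiagonal (k + 1),
      ((k : F) + 1) • Mb (2 * m) (dp X v x.1) (dp X v x.2) =
      ∑ x ∈ Finset.HasAntidiagonal.antidiagonal (k + 1), (x.1 : F) • Mb (2 * m) (dp X v x.1) (dp X v x.2) +
      ∑ x ∈ Finset.HasAntidiagonal.antidiagonal (k + 1), (x.2 : F) • Mb (2 * m) (dp X v x.1) (dp X v x.2) := by
    rw [← Finset.sum_add_distrib]
    refine Finset.sum_congr rfl fun x hx => ?_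
    rw [← add_smul]
    congr 1
    rw [Finset.HasAntidiagonal.mem_antidiagonal] at hx
    exact_mod_cast hx.symm
  rw [h1, Finset.Nat.sum_antidiagonal_succ, Finset.Nat.sum_antidiagonal_succ',
    Nat.cast_zero, zero_smul, zero_smul, zero_add, zero_add, ← Finset.sum_add_distrib]
  refine Finset.sum_congr rfl fun x _ => ?_
  rw [Mb_left, Mb_right h, dp_succ, dp_succ, sub_neg_eq_add]
  simp only [map_smul, LinearMap.smul_apply, Nat.cast_add, Nat.cast_one]

theorem Ph_mem (hL : LH m σ L) {X : Matrix (Fin (2 * m)) (Fin (2 * m)) F} (hX : X ∈ L)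
    {v : Fin (2 * m) → F} (hv : Mb (2 * m) v v ∈ Lp m σ L) (k : ℕ) : Ph m X v k ∈ Lp m σ L := by
  induction k with
  | zero =>
    unfold Ph
    simpa [dp] using hv
  | succ k ih =>
    have h1 := Lp_br hL hX ih
    rw [Ph_succ (hL.sp X hX)] at h1
    have h2 := (Lp m σ L).smul_mem ((k : F) + 1)⁻¹ h1
    rwa [smul_smul, inv_mul_cancel₀ (by exact_mod_cast Nat.succ_ne_zero k), one_smul] at h2

theorem curve_mem (hL : LH m σ L) {X : Matrix (Fin (2 * m)) (Fin (2 * m)) F} (hX : X ∈ L)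
    {v : Fin (2 * m) → F} (hv : Mb (2 * m) v v ∈ Lp m σ L) (N : ℕ) (hN : ∀ k, N ≤ k → X ^ k = 0)
    (s : F) : Mb (2 * m) (∑ k ∈ Finset.range N, s ^ k • dp X v k)
      (∑ k ∈ Finset.range N, s ^ k • dp X v k) ∈ Lp m σ L := by
  have h0 : ∀ k, N ≤ k → dp X v k = 0 := by
    intro k hk
    unfold dp
    rw [hN k hk, Matrix.zero_mulVec, smul_zero]
  have h1 : Mb (2 * m) (∑ k ∈ Finset.range N, s ^ k • dp X v k)
      (∑ k ∈ Finset.range N, s ^ k • dp X v k) =
      ∑ x ∈ Finset.range N ×ˢ Finset.range N,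
        s ^ (x.1 + x.2) • Mb (2 * m) (dp X v x.1) (dp X v x.2) := by
    rw [Finset.sum_product, LinearMap.map_sum₂]
    refine Finset.sum_congr rfl fun i _ => ?_
    rw [map_sum]
    refine Finset.sum_congr rfl fun j _ => ?_
    rw [map_smul, map_smul, LinearMap.smul_apply, smul_smul, pow_add, mul_comm (s ^ j)]
  have h2 : ∑ x ∈ Finset.range N ×ˢ Finset.range N,
        s ^ (x.1 + x.2) • Mb (2 * m) (dp X v x.1) (dp X v x.2) =
      ∑ k ∈ Finset.range (N + N), s ^ k • Ph m X v k := by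
    rw [← Finset.sum_fiberwise_of_maps_to (s := Finset.range N ×ˢ Finset.range N)
      (t := Finset.range (N + N)) (g := fun x => x.1 + x.2)]
    · refine Finset.sum_congr rfl fun k _ => ?_
      unfold Ph
      rw [Finset.smul_sum]
      have h3 : ∀ x ∈ (Finset.range N ×ˢ Finset.range N).filter fun x => x.1 + x.2 = k,
          s ^ (x.1 + x.2) • Mb (2 * m) (dp X v x.1) (dp X v x.2) =
          s ^ k • Mb (2 * m) (dp X v x.1) (dp X v x.2) := by
        intro x hx
        rw [(Finset.mem_filter.1 hx).2]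
      rw [Finset.sum_congr rfl h3]
      refine Finset.sum_subset ?_ ?_
      · intro x hx
        exact Finset.HasAntidiagonal.mem_antidiagonal.2 (Finset.mem_filter.1 hx).2
      · intro x hx hx'
        rw [Finset.mem_filter, Finset.mem_product, Finset.mem_range, Finset.mem_range] at hx'
        rw [Finset.HasAntidiagonal.mem_antidiagonal] at hx
        have h4 : N ≤ x.1 ∨ N ≤ x.2 := by
          by_contra hcon
          push Not at hcon
          exact hx' ⟨hcon, hx⟩
        rcases h4 with h4 | h4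
        · rw [h0 _ h4, map_zero, LinearMap.zero_apply, smul_zero]
        · rw [h0 _ h4, map_zero, smul_zero]
    · intro x hx
      rw [Finset.mem_product, Finset.mem_range, Finset.mem_range] at hx
      rw [Finset.mem_range]
      omega
  rw [h1, h2]
  exact (Lp m σ L).sum_mem fun k _ => (Lp m σ L).smul_mem _ (Ph_mem hL hX hv k)

/-- powers of homogeneous matrices -/
theorem cm_pow {n : ℕ} {X : Matrix (Fin n) (Fin n) F} {d : ℤ}
    (hX : ∀ a b : Fin n, ((b : ℕ) : ℤ) - ((a : ℕ) : ℤ) ≠ d → X a b = 0) (k : ℕ) (a b : Fin n)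
    (h : ((b : ℕ) : ℤ) - ((a : ℕ) : ℤ) ≠ k * d) : (X ^ k) a b = 0 := by
  induction k generalizing a b with
  | zero =>
    rw [pow_zero, Matrix.one_apply, if_neg]
    rintro rfl
    apply h
    simp
  | succ k ih =>
    rw [pow_succ, Matrix.mul_apply]
    refine Finset.sum_eq_zero fun c _ => ?_
    by_cases hc : ((c : ℕ) : ℤ) - ((a : ℕ) : ℤ) = k * d
    · rw [hX c b, mul_zero]
      intro hcb
      apply h
      push_cast
      linarith
    · rw [ih a c hc, zero_mul]

theorem cm_nil {n : ℕ} {X : Matrix (Fin n) (Fin n) F} {d : ℤ} (hd : d ≠ 0)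
    (hX : ∀ a b : Fin n, ((b : ℕ) : ℤ) - ((a : ℕ) : ℤ) ≠ d → X a b = 0) (k : ℕ) (hk : n ≤ k) :
    X ^ k = 0 := by
  ext a b
  rw [Matrix.zero_apply]
  apply cm_pow hX
  intro h
  have h1 : |((b : ℕ) : ℤ) - ((a : ℕ) : ℤ)| < n := by
    rw [abs_lt]
    constructor <;> omega
  rw [h, abs_mul] at h1
  have h2 : 1 ≤ |d| := Int.one_le_abs hd
  have h3 : (n : ℤ) ≤ |(k : ℤ)| * |d| := by
    rw [abs_of_nonneg (by positivity : (0 : ℤ) ≤ k)]
    have : (n : ℤ) ≤ k := by exact_mod_cast hk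
    nlinarith
  omega

open Classical in
/-- the number of nonzero coordinates -/
noncomputable def sz {n : ℕ} (v : Fin n → F) : ℕ := (Finset.univ.filter fun i => v i ≠ 0).card

open Classical in
theorem step (hL : LH m σ L) (hI : Irr L) {v : Fin (2 * m) → F}
    (hv : Mb (2 * m) v v ∈ Lp m σ L) (h1 : 1 ≤ sz v) (h2 : sz v < 2 * m) :
    ∃ w : Fin (2 * m) → F, Mb (2 * m) w w ∈ Lp m σ L ∧ sz v + 1 ≤ sz w := by
  obtain ⟨i0, hi0⟩ := Finset.card_pos.1 h1
  have hne : {i | v i ≠ 0} ≠ Set.univ := by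
    intro h
    have h3 : (Finset.univ.filter fun i => v i ≠ 0) = Finset.univ := by
      ext i
      have : i ∈ {i | v i ≠ 0} := by rw [h]; exact Set.mem_univ i
      simpa using this
    unfold sz at h2
    rw [h3, Finset.card_univ, Fintype.card_fin] at h2
    exact lt_irrefl _ h2
  obtain ⟨X, hX, a, ha, b, hb, hab⟩ := hI {i | v i ≠ 0} ⟨i0, (Finset.mem_filter.1 hi0).2⟩ hne
  have hva : v a = 0 := by
    by_contra h
    exact ha h
  have hvb : v b ≠ 0 := hb
  obtain ⟨d, hd⟩ : ∃ d : ℤ, d = ((b : ℕ) : ℤ) - ((a : ℕ) : ℤ) := ⟨_, rfl⟩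
  have hd0 : d ≠ 0 := by
    intro h
    have : a = b := by
      apply Fin.ext
      omega
    rw [this] at hva
    exact hvb hva
  obtain ⟨Z, hZ⟩ : ∃ Z, Z = cm d X := ⟨_, rfl⟩
  have hZL : Z ∈ L := by
    rw [hZ]
    exact cm_mem L (fun Y hY => hL.br _ hL.gr _ hY) X hX d
  have hZ0 : ∀ a b : Fin (2 * m), ((b : ℕ) : ℤ) - ((a : ℕ) : ℤ) ≠ d → Z a b = 0 := by
    intro a b h
    rw [hZ]
    unfold cm
    rw [Matrix.of_apply, if_neg h]
  have hZab : Z a b = X a b := by
    rw [hZ]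
    unfold cm
    rw [Matrix.of_apply, if_pos hd.symm]
  have hZv : (Z *ᵥ v) a ≠ 0 := by
    have : (Z *ᵥ v) a = Z a b * v b := by
      show ∑ c, Z a c * v c = _
      rw [Finset.sum_eq_single b]
      · intro c _ hc
        rw [hZ0 a c, zero_mul]
        intro h
        apply hc
        apply Fin.ext
        omega
      · intro h
        exact absurd (Finset.mem_univ _) h
    rw [this, hZab]
    exact mul_ne_zero hab hvb
  have hnil : ∀ k, 2 * m + 2 ≤ k → Z ^ k = 0 := fun k hk => cm_nil hd0 hZ0 k (by omega)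
  -- the polynomials
  obtain ⟨P, hP⟩ : ∃ P : Fin (2 * m) → Polynomial F, P = fun i =>
    ∑ k ∈ Finset.range (2 * m + 2), Polynomial.monomial k (dp Z v k i) := ⟨_, rfl⟩
  have hPc : ∀ i k, k < 2 * m + 2 → (P i).coeff k = dp Z v k i := by
    intro i k hk
    rw [hP]
    simp only [Polynomial.finsetSum_coeff, Polynomial.coeff_monomial]
    rw [Finset.sum_ite_eq' (Finset.range (2 * m + 2)) k, if_pos (Finset.mem_range.2 hk)]
  have hPe : ∀ i s, (P i).eval s = (∑ k ∈ Finset.range (2 * m + 2), s ^ k • dp Z v k) i := by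
    intro i s
    rw [hP]
    simp only [Polynomial.eval_finsetSum, Polynomial.eval_monomial, Finset.sum_apply,
      Pi.smul_apply, smul_eq_mul]
    exact Finset.sum_congr rfl fun k _ => mul_comm _ _
  have hPi : ∀ i, v i ≠ 0 → P i ≠ 0 := by
    intro i hi h
    have h3 := hPc i 0 (by omega)
    rw [h, Polynomial.coeff_zero] at h3
    apply hi
    rw [h3]
    simp [dp]
  have hPa : P a ≠ 0 := by
    intro h
    have h3 := hPc a 1 (by omega)
    rw [h, Polynomial.coeff_zero] at h3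
    apply hZv
    rw [h3]
    simp [dp]
  have hprod : (P a * ∏ i ∈ Finset.univ.filter (fun i => v i ≠ 0), P i) ≠ 0 := by
    refine mul_ne_zero hPa (Finset.prod_ne_zero_iff.2 fun i hi => ?_)
    exact hPi i (Finset.mem_filter.1 hi).2
  obtain ⟨s, hs⟩ : ∃ s, (P a * ∏ i ∈ Finset.univ.filter (fun i => v i ≠ 0), P i).eval s ≠ 0 := by
    by_contra hcon
    push Not at hcon
    apply hprod
    refine Polynomial.funext fun r => ?_
    rw [hcon r, Polynomial.eval_zero]
  rw [Polynomial.eval_mul, Polynomial.eval_prod] at hs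
  have hs1 := left_ne_zero_of_mul hs
  have hs2 := Finset.prod_ne_zero_iff.1 (right_ne_zero_of_mul hs)
  refine ⟨∑ k ∈ Finset.range (2 * m + 2), s ^ k • dp Z v k,
    curve_mem hL hZL hv _ hnil s, ?_⟩
  unfold sz
  have h5 : insert a (Finset.univ.filter fun i => v i ≠ 0) ⊆ Finset.univ.filter fun i =>
      (∑ k ∈ Finset.range (2 * m + 2), s ^ k • dp Z v k) i ≠ 0 := by
    intro i hi
    rw [Finset.mem_filter]
    refine ⟨Finset.mem_univ _, ?_⟩
    rw [← hPe]
    rcases Finset.mem_insert.1 hi with rfl | hi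
    · exact hs1
    · exact hs2 i hi
  have h6 := Finset.card_le_card h5
  rwa [Finset.card_insert_of_notMem (by simp [hva])] at h6

end growth

theorem EE_eq {m : ℕ} (hm : 1 ≤ m) : Mb (2 * m) (Pi.single (⟨0, by omega⟩ : Fin (2 * m)) (1 : F))
    (Pi.single (⟨0, by omega⟩ : Fin (2 * m)) (1 : F)) = EE F (2 * m) := by
  ext a b
  rw [Mb_entry]
  unfold EE
  rw [Matrix.of_apply, Pi.single_apply, Pi.single_apply]
  by_cases ha : (a : ℕ) = 0
  · by_cases hb : (b : ℕ) + 1 = 2 * m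
    · have h1 : Fin.rev b = (⟨0, by omega⟩ : Fin (2 * m)) := by
        apply Fin.ext
        rw [Fin.val_rev]
        show _ = 0
        omega
      rw [if_pos (Fin.ext ha), if_pos h1, if_pos ⟨ha, hb⟩, h1]
      simp
    · rw [if_neg (c := Fin.rev b = _), if_neg (c := _ ∧ _) fun h => hb h.2, mul_zero, zero_mul]
      intro h
      apply hb
      have h1 := congrArg Fin.val h
      rw [Fin.val_rev] at h1
      have h2 : 2 * m - ((b : ℕ) + 1) = 0 := h1
      omega
  · rw [if_neg (c := a = _) fun h => ha (congrArg Fin.val h), if_neg (c := _ ∧ _) fun h => ha h.1,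
      zero_mul, zero_mul]

theorem Mb_sp {m : ℕ} (v : Fin (2 * m) → F) :
    Mb (2 * m) v v * SS F (2 * m) + SS F (2 * m) * (Mb (2 * m) v v)ᵀ = 0 := by
  have h1 : (SS F (2 * m))ᵀ = -SS F (2 * m) := by
    ext i j
    rw [Matrix.transpose_apply, Matrix.neg_apply]
    unfold SS
    rw [Matrix.of_apply, Matrix.of_apply]
    by_cases h : (i : ℕ) + j + 1 = 2 * m
    · rw [if_pos h, if_pos (by omega)]
      rcases Nat.even_or_odd (i : ℕ) with hi | hi
      · have hj : Odd (j : ℕ) := by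
          obtain ⟨r, hr⟩ := hi
          exact ⟨m - r - 1, by omega⟩
        rw [hi.neg_one_pow, hj.neg_one_pow]
      · have hj : Even (j : ℕ) := by
          obtain ⟨r, hr⟩ := hi
          exact ⟨m - r - 1, by omega⟩
        rw [hi.neg_one_pow, hj.neg_one_pow, neg_neg]
    · rw [if_neg h, if_neg (by omega), neg_zero]
  have h2 : (vecMulVec v v)ᵀ = vecMulVec v v := by
    ext i j
    rw [Matrix.transpose_apply, Matrix.vecMulVec_apply, Matrix.vecMulVec_apply, mul_comm]
  rw [Mb_apply, Matrix.transpose_mul, h1, h2]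
  have h3 : vecMulVec v v * SS F (2 * m) * SS F (2 * m) +
      SS F (2 * m) * (-SS F (2 * m) * vecMulVec v v) =
      vecMulVec v v * (SS F (2 * m) * SS F (2 * m)) -
        (SS F (2 * m) * SS F (2 * m)) * vecMulVec v v := by
    noncomm_ring
  rw [h3, SS_sq]
  noncomm_ring

/-- **LIE2** -/
theorem lie2 : S_LIE2 := by
  intro F _ _ σ m hm hσ L hL hI hE
  have hgr : ∀ X ∈ L, gr F (2 * m) * X - X * gr F (2 * m) ∈ L := fun Y hY =>
    hL.br _ hL.gr _ hY
  have hgrp : ∀ X ∈ Lp m σ L, gr F (2 * m) * X - X * gr F (2 * m) ∈ Lp m σ L := fun Y hY =>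
    Lp_br hL hL.gr hY
  -- (3)
  have h3 : EE F (2 * m) ∈ Lp m σ L := by
    rw [mem_Lp]
    refine ⟨by rw [← EE_eq hm]; exact Mb_sp _, fun X hX => ?_⟩
    rw [tr_eq, Finset.sum_eq_single (⟨0, by omega⟩ : Fin (2 * m)),
      Finset.sum_eq_single (⟨2 * m - 1, by omega⟩ : Fin (2 * m))]
    · by_contra hcon
      have h4 : X ⟨0, by omega⟩ ⟨2 * m - 1, by omega⟩ ≠ 0 := left_ne_zero_of_mul hcon
      apply hE
      have h5 := L.smul_mem (X ⟨0, by omega⟩ ⟨2 * m - 1, by omega⟩)⁻¹
        (cm_mem L hgr X hX ((2 * m - 1 : ℕ) : ℤ))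
      convert h5 using 1
      ext a b
      rw [Matrix.smul_apply, smul_eq_mul]
      unfold EE cm
      rw [Matrix.of_apply, Matrix.of_apply]
      by_cases hab : (a : ℕ) = 0 ∧ (b : ℕ) + 1 = 2 * m
      · have ha : a = ⟨0, by omega⟩ := Fin.ext hab.1
        have hb : b = ⟨2 * m - 1, by omega⟩ := Fin.ext (by
          show (b : ℕ) = 2 * m - 1
          omega)
        rw [if_pos hab, if_pos (by omega), ha, hb, inv_mul_cancel₀ h4]
      · rw [if_neg hab, if_neg, mul_zero]
        intro h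
        apply hab
        omega
    · intro b _ hb
      unfold EE
      rw [Matrix.of_apply, if_neg, map_zero, mul_zero]
      rintro ⟨-, h⟩
      apply hb
      apply Fin.ext
      show (b : ℕ) = 2 * m - 1
      omega
    · intro h
      exact absurd (Finset.mem_univ _) h
    · intro a _ ha
      refine Finset.sum_eq_zero fun b _ => ?_
      unfold EE
      rw [Matrix.of_apply, if_neg, map_zero, mul_zero]
      rintro ⟨h, -⟩
      exact ha (Fin.ext h)
    · intro h
      exact absurd (Finset.mem_univ _) h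
  -- (5)
  have h5 : ∀ t, 1 ≤ t → t ≤ 2 * m → ∃ v : Fin (2 * m) → F, Mb (2 * m) v v ∈ Lp m σ L ∧
      t ≤ sz v := by
    intro t ht
    induction t, ht using Nat.le_induction with
    | base =>
      intro _
      refine ⟨Pi.single (⟨0, by omega⟩ : Fin (2 * m)) 1, by rw [EE_eq hm]; exact h3, ?_⟩
      unfold sz
      rw [Nat.one_le_iff_ne_zero, ← Nat.pos_iff_ne_zero, Finset.card_pos]
      exact ⟨⟨0, by omega⟩, by simp⟩
    | succ t ht ih =>
      intro ht2
      obtain ⟨v, hv, hvt⟩ := ih (by omega)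
      by_cases h : t + 1 ≤ sz v
      · exact ⟨v, hv, h⟩
      · obtain ⟨w, hw, hw'⟩ := step hL hI hv (by omega) (by omega)
        exact ⟨w, hw, by omega⟩
  obtain ⟨v, hv, hsz⟩ := h5 (2 * m) (by omega) le_rfl
  have hv0 : ∀ i, v i ≠ 0 := by
    classical
    intro i hi
    unfold sz at hsz
    have h6 : (Finset.univ.filter fun i => v i ≠ 0) ⊆ Finset.univ.erase i := by
      intro j hj
      rw [Finset.mem_erase]
      refine ⟨?_, Finset.mem_univ _⟩
      rintro rfl
      exact (Finset.mem_filter.1 hj).2 hi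
    have h7 := Finset.card_le_card h6
    rw [Finset.card_erase_of_mem (Finset.mem_univ _), Finset.card_univ, Fintype.card_fin] at h7
    have h8 : (Finset.univ.filter fun i => v i ≠ 0).card ≤ 2 * m - 1 := h7
    have h9 : 2 * m ≤ (Finset.univ.filter fun i => v i ≠ 0).card := by
      convert hsz
    omega
  have hent : ∀ a b, Mb (2 * m) v v a b ≠ 0 := by
    intro a b
    rw [Mb_entry]
    exact mul_ne_zero (mul_ne_zero (hv0 _) (hv0 _)) (pow_ne_zero _ (by norm_num))
  -- (6)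
  refine ⟨fun j => cm (((j : ℕ) + 1 : ℕ) : ℤ) (Mb (2 * m) v v), ?_, ?_⟩
  · rw [Fintype.linearIndependent_iff]
    intro g hg j
    have h6 := congrFun (congrFun hg (⟨0, by omega⟩ : Fin (2 * m)))
      (⟨(j : ℕ) + 1, by omega⟩ : Fin (2 * m))
    rw [Matrix.sum_apply, Finset.sum_eq_single j] at h6
    · rw [Matrix.smul_apply, smul_eq_mul, Matrix.zero_apply] at h6
      unfold cm at h6
      rw [Matrix.of_apply, if_pos (by simp)] at h6
      exact (mul_eq_zero.1 h6).resolve_right (hent _ _)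
    · intro i _ hi
      rw [Matrix.smul_apply, smul_eq_mul]
      unfold cm
      rw [Matrix.of_apply, if_neg, mul_zero]
      intro h
      apply hi
      apply Fin.ext
      simp only [Nat.cast_zero, sub_zero, Nat.cast_inj] at h
      omega
    · intro h
      exact absurd (Finset.mem_univ _) h
  · intro j
    have h6 := cm_mem (Lp m σ L) hgrp _ hv (((j : ℕ) + 1 : ℕ) : ℤ)
    rw [mem_Lp] at h6
    refine ⟨h6.1, ?_, h6.2⟩
    intro a b hab
    show cm (((j : ℕ) + 1 : ℕ) : ℤ) (Mb (2 * m) v v) a b = 0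
    unfold cm
    rw [Matrix.of_apply, if_neg]
    intro h
    have : (b : ℕ) ≤ a := hab
    omega

end Pool.Agent.Y961.MT
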